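import Pool.Agent.H397R2.QF.H3462PDefs

/-! PA2: tent sums over primes in a residue class modulo 4 (helper866). -/

open Filter Topology Asymptotics

namespace Pool.Agent.H346R2.QG

namespace PA2Aux

/-- `θ(m; 4, a)` -/
noncomputable def W (a m : ℕ) : ℝ :=
  ∑ p ∈ (Finset.range (m + 1)).filter (fun p => p.Prime ∧ p % 4 = a), Real.log p

theorem tent (α n j p : ℕ) (hj : 1 ≤ j) :
    ((α * n - j * p : ℕ) : ℝ) =
      ∑ t ∈ Finset.range (α * n), if p ≤ t / j then (1 : ℝ) else 0 := by
  rw [Finset.sum_ite, Finset.sum_const_zero, add_zero, Finset.sum_const, nsmul_eq_mul, mul_one]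
  congr 1
  have : (Finset.range (α * n)).filter (fun t => p ≤ t / j) = Finset.Ico (j * p) (α * n) := by
    ext t
    simp only [Finset.mem_filter, Finset.mem_range, Finset.mem_Ico]
    rw [Nat.le_div_iff_mul_le (by omega), mul_comm p j]
    tauto
  rw [this, Nat.card_Ico]

theorem swap (a α j n : ℕ) (hα : α ≤ 32) (hj : 1 ≤ j) :
    ∑ p ∈ PP a n, ((α * n - j * p : ℕ) : ℝ) * Real.log p =
      ∑ t ∈ Finset.range (α * n), W a (t / j) := by
  have h1 : ∑ p ∈ PP a n, ((α * n - j * p : ℕ) : ℝ) * Real.log p =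
      ∑ p ∈ PP a n, ∑ t ∈ Finset.range (α * n), if p ≤ t / j then Real.log p else 0 := by
    refine Finset.sum_congr rfl fun p _ => ?_
    rw [tent α n j p hj, Finset.sum_mul]
    refine Finset.sum_congr rfl fun t _ => ?_
    split_ifs <;> simp
  rw [h1, Finset.sum_comm]
  refine Finset.sum_congr rfl fun t ht => ?_
  rw [← Finset.sum_filter]
  unfold W PP
  refine Finset.sum_congr ?_ fun _ _ => rfl
  ext p
  simp only [Finset.mem_filter, Finset.mem_range]
  have ht' := Finset.mem_range.mp ht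
  have h2 : t / j ≤ t := Nat.div_le_self _ _
  have h3 : α * n ≤ 32 * n := Nat.mul_le_mul_right _ hα
  constructor
  · rintro ⟨⟨_, hp⟩, hpt⟩
    exact ⟨by omega, hp⟩
  · rintro ⟨hpt, hp⟩
    exact ⟨⟨by omega, hp⟩, by omega⟩

end PA2Aux

open PA2Aux

theorem PA2 (a : ℕ) (_ha : a = 1 ∨ a = 3)
    (hPA : Tendsto (fun m : ℕ =>
      (∑ p ∈ (Finset.range (m + 1)).filter (fun p => p.Prime ∧ p % 4 = a), Real.log p) / (m : ℝ))
      atTop (𝓝 (1 / 2)))
    (α j : ℕ) (hα : α ≤ 32) (hj : 1 ≤ j) : Tendsto (fun n : ℕ =>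
    (∑ p ∈ PP a n, ((α * n - j * p : ℕ) : ℝ) * Real.log p) / (n : ℝ) ^ 2) atTop (𝓝 ((α : ℝ) ^ 2 / (4 * j))) := by
  have hj' : (0 : ℝ) < j := by exact_mod_cast hj
  have hW : Tendsto (fun m : ℕ => W a m / (m : ℝ)) atTop (𝓝 (1 / 2)) := hPA
  have hdiv : Tendsto (fun t : ℕ => t / j) atTop atTop := by
    rw [tendsto_atTop_atTop]
    intro b
    exact ⟨b * j, fun t ht => (Nat.le_div_iff_mul_le (by omega)).2 ht⟩
  have hfl : Tendsto (fun t : ℕ => ((t / j : ℕ) : ℝ) / (t : ℝ)) atTop (𝓝 (1 / j)) := by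
    have h1 := (tendsto_nat_floor_mul_div_atTop (R := ℝ) (a := 1 / j) (by positivity)).comp
      (tendsto_natCast_atTop_atTop (R := ℝ))
    refine h1.congr fun t => ?_
    simp only [Function.comp_apply]
    congr 2
    rw [one_div_mul_eq_div, Nat.floor_div_eq_div]
  have hWt : Tendsto (fun t : ℕ => W a (t / j) / (t : ℝ)) atTop (𝓝 (1 / (2 * j))) := by
    have h1 := (hW.comp hdiv).mul hfl
    have e : (1 : ℝ) / 2 * (1 / j) = 1 / (2 * j) := by field_simp
    rw [e] at h1
    refine h1.congr' ?_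
    filter_upwards [hdiv.eventually_ge_atTop 1] with t ht
    simp only [Function.comp_apply]
    have h2 : ((t / j : ℕ) : ℝ) ≠ 0 := by
      have : (1 : ℝ) ≤ ((t / j : ℕ) : ℝ) := by exact_mod_cast ht
      linarith
    field_simp
  have hlo : (fun t : ℕ => W a (t / j) - (t : ℝ) / (2 * j)) =o[atTop] (fun t : ℕ => (t : ℝ)) := by
    rw [isLittleO_iff_tendsto']
    · have h1 := hWt.sub_const (1 / (2 * (j : ℝ)))
      rw [sub_self] at h1
      refine h1.congr' ?_
      filter_upwards [eventually_ge_atTop 1] with t ht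
      have h2 : (t : ℝ) ≠ 0 := by
        have : (1 : ℝ) ≤ t := by exact_mod_cast ht
        linarith
      field_simp
    · filter_upwards [eventually_ge_atTop 1] with t ht h0
      have : (1 : ℝ) ≤ t := by exact_mod_cast ht
      linarith
  have hS : ∀ N : ℕ, ∑ t ∈ Finset.range N, (t : ℝ) = N * (N - 1) / 2 := by
    intro N
    induction N with
    | zero => simp
    | succ N ih => rw [Finset.sum_range_succ, ih]; push_cast; ring
  have hS2 : Tendsto (fun N : ℕ => (∑ t ∈ Finset.range N, (t : ℝ)) / (N : ℝ) ^ 2) atTop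
      (𝓝 (1 / 2)) := by
    have h1 : Tendsto (fun N : ℕ => (1 : ℝ) / 2 - (1 / 2) * ((N : ℝ))⁻¹) atTop (𝓝 (1 / 2 - 1 / 2 * 0)) :=
      tendsto_const_nhds.sub (tendsto_const_nhds.mul tendsto_inv_atTop_nhds_zero_nat)
    rw [mul_zero, sub_zero] at h1
    refine h1.congr' ?_
    filter_upwards [eventually_ge_atTop 1] with N hN
    rw [hS]
    have h2 : (N : ℝ) ≠ 0 := by
      have : (1 : ℝ) ≤ N := by exact_mod_cast hN
      linarith
    field_simp
  have hSinf : Tendsto (fun N : ℕ => ∑ t ∈ Finset.range N, (t : ℝ)) atTop atTop := by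
    refine tendsto_atTop_mono' atTop ?_ ((tendsto_natCast_atTop_atTop (R := ℝ)).atTop_div_const
      (show (0 : ℝ) < 2 by norm_num))
    filter_upwards [eventually_ge_atTop 2] with N hN
    rw [hS]
    have : (2 : ℝ) ≤ N := by exact_mod_cast hN
    nlinarith
  have hlo2 := hlo.sum_range (fun t => Nat.cast_nonneg t) hSinf
  have hq := hlo2.tendsto_div_nhds_zero
  -- the main limit
  have hF : Tendsto (fun N : ℕ => (∑ t ∈ Finset.range N, W a (t / j)) / (N : ℝ) ^ 2) atTop
      (𝓝 (1 / (4 * j))) := by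
    have h1 := (hq.mul hS2).add (hS2.const_mul (1 / (2 * (j : ℝ))))
    have e : (0 : ℝ) * (1 / 2) + 1 / (2 * j) * (1 / 2) = 1 / (4 * j) := by
      field_simp; norm_num
    rw [e] at h1
    refine h1.congr' ?_
    filter_upwards [eventually_ge_atTop 2] with N hN
    have h2 : (2 : ℝ) ≤ N := by exact_mod_cast hN
    have h3 : ∑ t ∈ Finset.range N, (t : ℝ) ≠ 0 := by
      rw [hS]
      have : 0 < (N : ℝ) * (N - 1) / 2 := by
        have : 0 < (N : ℝ) * (N - 1) := mul_pos (by linarith) (by linarith)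
        linarith
      exact this.ne'
    have h4 : ∑ t ∈ Finset.range N, W a (t / j) =
        (∑ t ∈ Finset.range N, (W a (t / j) - (t : ℝ) / (2 * j))) +
          1 / (2 * j) * ∑ t ∈ Finset.range N, (t : ℝ) := by
      rw [Finset.sum_sub_distrib, Finset.mul_sum]
      have : ∑ t ∈ Finset.range N, (t : ℝ) / (2 * j) =
          ∑ t ∈ Finset.range N, 1 / (2 * (j : ℝ)) * t := by
        refine Finset.sum_congr rfl fun t _ => by ring
      rw [this]
      ring
    rw [h4]
    generalize ∑ t ∈ Finset.range N, (t : ℝ) = s at h3 ⊢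
    generalize ∑ t ∈ Finset.range N, (W a (t / j) - (t : ℝ) / (2 * j)) = u
    have h5 : (N : ℝ) ≠ 0 := by linarith
    field_simp
  -- transfer to `α n`
  rcases Nat.eq_zero_or_pos α with h0 | h0
  · subst h0
    refine tendsto_const_nhds.congr' (f₁ := fun _ => (0 : ℝ)) ?_ |>.trans ?_
    · filter_upwards with n
      simp
    · simp
  · have hα' : (0 : ℝ) < α := by exact_mod_cast h0
    have hm : Tendsto (fun n : ℕ => α * n) atTop atTop :=
      tendsto_id.const_mul_atTop' h0
    have h1 := (hF.comp hm).mul_const ((α : ℝ) ^ 2)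
    have e : (1 : ℝ) / (4 * j) * (α : ℝ) ^ 2 = (α : ℝ) ^ 2 / (4 * j) := by ring
    rw [e] at h1
    refine h1.congr' ?_
    filter_upwards [eventually_ge_atTop 1] with n hn
    have h2 : (n : ℝ) ≠ 0 := by
      have : (1 : ℝ) ≤ n := by exact_mod_cast hn
      linarith
    simp only [Function.comp_apply]
    rw [swap a α j n hα hj]
    push_cast
    field_simp

end Pool.Agent.H346R2.QG

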