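import Pool.Agent.H397R2.QF.H3462PDefs

/-! # Exponent inequality for `2 n < p ≤ 8 n` -/

namespace Pool.Agent.H346R2.QG

theorem PC2_E2 (n σ p a : ℕ) (h1 : 2 * n < p) (ha : 8 * n / p = a) :
    E2 n σ p = 15 * (n : ℤ) + 14 * a * n - (a : ℤ) ^ 2 * p - a * p
      - ((8 * n % p + 2 * n - p : ℕ) : ℤ)
      - (if a = 1 then ((min (jj σ p) (p - 2 * n) - 8 * n % p : ℕ) : ℤ) else 0) := by
  have hp0 : 0 < p := by omega
  have hn1 : n / p = 0 := Nat.div_eq_of_lt (by omega)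
  have hn2 : n % p = n := Nat.mod_eq_of_lt (by omega)
  have h21 : 2 * n / p = 0 := Nat.div_eq_of_lt (by omega)
  have h22 : 2 * n % p = 2 * n := Nat.mod_eq_of_lt (by omega)
  have hm : min n (2 * n) = n := by omega
  have h8 : ((8 * n % p : ℕ) : ℤ) = 8 * n - a * p := by
    have := Nat.div_add_mod (8 * n) p
    rw [ha] at this
    have h2 : ((p * a + 8 * n % p : ℕ) : ℤ) = ((8 * n : ℕ) : ℤ) := by rw [this]
    push_cast at h2 ⊢
    linarith
  unfold E2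
  rw [hn1, hn2, h21, h22, hm, ha, h8]
  push_cast
  ring

theorem PC2_SF (n p c : ℕ) (hc : 7 * n / p = c) :
    SF n p = 14 * c * (n : ℤ) - (c : ℤ) ^ 2 * p - c * p := by
  have h7 : ((7 * n % p : ℕ) : ℤ) = 7 * n - c * p := by
    have := Nat.div_add_mod (7 * n) p
    rw [hc] at this
    have h2 : ((p * c + 7 * n % p : ℕ) : ℤ) = ((7 * n : ℕ) : ℤ) := by rw [this]
    push_cast at h2 ⊢
    linarith
  unfold SF
  rw [hc, h7]
  ring

theorem PC2_mod (n p a : ℕ) (ha : 8 * n / p = a) : 8 * n % p = 8 * n - a * p := by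
  have := Nat.div_add_mod (8 * n) p
  rw [ha, mul_comm] at this
  omega

theorem PC2_jj (σ p : ℕ) (hσ : σ = 1 ∨ σ = 3) (hp : p % 2 = 1) :
    (p % 4 = σ ∧ 4 * jj σ p + σ = p) ∨ (p % 4 ≠ σ ∧ 4 * jj σ p + σ = 3 * p) := by
  unfold jj
  split_ifs with h
  · left; omega
  · right; omega

theorem PC2 (n σ p : ℕ) (hσ : σ = 1 ∨ σ = 3) (hp : p % 2 = 1) (h1 : 2 * n < p) (h2 : p ≤ 8 * n) :
    20 * (E2 n σ p - SF n p) ≤ (if p % 4 = σ then FA n p else FB n p) + 1000 := by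
  have hp0 : 0 < p := by omega
  have hcase : (8 * n / p = 1 ∧ p ≤ 8 * n ∧ 8 * n < 2 * p) ∨
      (8 * n / p = 2 ∧ 2 * p ≤ 8 * n ∧ 8 * n < 3 * p) ∨
      (8 * n / p = 3 ∧ 3 * p ≤ 8 * n ∧ 8 * n < 4 * p) := by
    rcases lt_or_ge (8 * n) (2 * p) with h | h
    · left; exact ⟨Nat.div_eq_of_lt_le (by omega) (by omega), h2, h⟩
    · right
      rcases lt_or_ge (8 * n) (3 * p) with h' | h'
      · left; exact ⟨Nat.div_eq_of_lt_le (by omega) (by omega), h, h'⟩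
      · right; exact ⟨Nat.div_eq_of_lt_le (by omega) (by omega), h', by omega⟩
  have hcase7 : (7 * n / p = 0 ∧ 7 * n < p) ∨ (7 * n / p = 1 ∧ p ≤ 7 * n ∧ 7 * n < 2 * p) ∨
      (7 * n / p = 2 ∧ 2 * p ≤ 7 * n ∧ 7 * n < 3 * p) ∨
      (7 * n / p = 3 ∧ 3 * p ≤ 7 * n ∧ 7 * n < 4 * p) := by
    rcases lt_or_ge (7 * n) p with h | h
    · left; exact ⟨Nat.div_eq_of_lt h, h⟩
    · right
      rcases lt_or_ge (7 * n) (2 * p) with h' | h'
      · left; exact ⟨Nat.div_eq_of_lt_le (by omega) (by omega), h, h'⟩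
      · right
        rcases lt_or_ge (7 * n) (3 * p) with h'' | h''
        · left; exact ⟨Nat.div_eq_of_lt_le (by omega) (by omega), h', h''⟩
        · right; exact ⟨Nat.div_eq_of_lt_le (by omega) (by omega), h'', by omega⟩
  have hj := PC2_jj σ p hσ hp
  rcases hcase with ⟨e8, l8, u8⟩ | ⟨e8, l8, u8⟩ | ⟨e8, l8, u8⟩ <;>
  rcases hcase7 with ⟨e7, u7⟩ | ⟨e7, l7, u7⟩ | ⟨e7, l7, u7⟩ | ⟨e7, l7, u7⟩ <;>
  first
  | (exfalso; omega)
  | (rw [PC2_E2 n σ p _ h1 e8, PC2_SF n p _ e7, PC2_mod n p _ e8]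
     unfold FA FB FR
     rw [if_neg (show ¬ p ≤ 2 * n by omega), if_pos h2, if_pos h2]
     generalize jj σ p = j at *
     norm_num
     split_ifs <;> omega)

end Pool.Agent.H346R2.QG

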