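import Pool.Agent.H383.QG.GDefs
import Pool.Agent.H337R2.Cx4

/-!
# Comparison of `WL` on the line with the product over all half integers
-/

open Polynomial Pool.Agent.H337R2

namespace Pool.Agent.QG.LG

noncomputable section

namespace G1Ax

/-- the weights -/
def w (y : ℝ) (m : ℕ) : ℝ := 1 + y ^ 2 / ((m : ℝ) - 1 / 2) ^ 2

lemma w_pos (y : ℝ) (m : ℕ) : 0 < w y m := by unfold w; positivity

lemma one_le_w (y : ℝ) (m : ℕ) : 1 ≤ w y m := by unfold w; exact le_add_of_nonneg_right (by positivity)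

lemma HM_w (y : ℝ) (M : ℕ) : HM y M = ∏ m ∈ Finset.Ioc 0 M, w y m := by
  unfold HM
  refine Finset.prod_nbij' (fun m => m + 1) (fun m => m - 1) ?_ ?_ ?_ ?_ ?_
  · intro m hm; rw [Finset.mem_range] at hm; rw [Finset.mem_Ioc]; omega
  · intro m hm; rw [Finset.mem_Ioc] at hm; rw [Finset.mem_range]; omega
  · intro m hm; simp
  · intro m hm; rw [Finset.mem_Ioc] at hm; omega
  · intro m _
    unfold w
    push_cast
    have : ((m : ℝ) + 1 - 1 / 2) = m + 1 / 2 := by ring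
    rw [this]

lemma sqn (a y : ℝ) : ‖((a : ℝ) : ℂ) + y * Complex.I‖ ^ 2 = a ^ 2 + y ^ 2 := by
  rw [← Complex.normSq_eq_norm_sq, Complex.normSq_add_mul_I]

lemma prodsq (s : Finset ℕ) (y : ℝ) (f f0 : ℕ → ℂ) (a : ℕ → ℝ) (ha : ∀ j ∈ s, a j ≠ 0)
    (hf : ∀ j ∈ s, f j = ((a j : ℝ) : ℂ) + y * Complex.I)
    (hf0 : ∀ j ∈ s, f0 j = ((a j : ℝ) : ℂ) + ((0 : ℝ) : ℂ) * Complex.I) :
    (∏ j ∈ s, ‖f j‖) ^ 2 = (∏ j ∈ s, ‖f0 j‖) ^ 2 * ∏ j ∈ s, (1 + y ^ 2 / (a j) ^ 2) := by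
  rw [← Finset.prod_pow, ← Finset.prod_pow, ← Finset.prod_mul_distrib]
  refine Finset.prod_congr rfl fun j hj => ?_
  rw [hf j hj, hf0 j hj, sqn, sqn]
  have h := ha j hj
  field_simp
  ring

lemma fr_le (y a b : ℝ) (hb : 0 < b) (h : b ≤ a) : 1 + y ^ 2 / a ^ 2 ≤ 1 + y ^ 2 / b ^ 2 := by
  gcongr

/-- `δ` -/
def dl (σ : ℕ) : ℝ := (4 - σ) / 8

lemma dl_bd {σ : ℕ} (hσ : σ = 1 ∨ σ = 3) : 1 / 8 ≤ dl σ ∧ dl σ ≤ 3 / 8 := by
  unfold dl
  rcases hσ with h | h <;> subst h <;> norm_num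

/-- ratio of the factors of `U` -/
def rU (n σ : ℕ) (y : ℝ) : ℝ := ∏ j ∈ Finset.range (2 * n), (1 + y ^ 2 / (2 * (n : ℝ) - dl σ - j) ^ 2)

/-- ratio of the factors of `Z` -/
def rZ (n σ : ℕ) (y : ℝ) : ℝ :=
  ∏ v ∈ Finset.range (2 * n), (1 + y ^ 2 / (2 * (n : ℝ) - dl σ - (v + σ / 4)) ^ 2)

/-- ratio of the factors of `P` -/
def rP (n σ : ℕ) (y : ℝ) : ℝ := ∏ k ∈ Finset.Icc 1 (8 * n), (1 + y ^ 2 / (2 * (n : ℝ) - dl σ + k) ^ 2)

lemma rP_pos (n σ : ℕ) (y : ℝ) : 0 < rP n σ y := Finset.prod_pos fun _ _ => by positivity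

lemma rU_pos (n σ : ℕ) (y : ℝ) : 0 < rU n σ y := Finset.prod_pos fun _ _ => by positivity

lemma rZ_pos (n σ : ℕ) (y : ℝ) : 0 < rZ n σ y := Finset.prod_pos fun _ _ => by positivity

lemma cast_lt {n j : ℕ} (hj : j < 2 * n) : (j : ℝ) + 1 ≤ 2 * n := by
  have : j + 1 ≤ 2 * n := hj
  exact_mod_cast this

lemma WL_sq {n σ : ℕ} (hσ : σ = 1 ∨ σ = 3) (y : ℝ) :
    WL n σ y ^ 2 = WL n σ 0 ^ 2 * (rU n σ y * rZ n σ y ^ 2 / rP n σ y ^ 2) := by
  obtain ⟨hd1, hd2⟩ := dl_bd hσ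
  have hσ4 : (σ : ℝ) / 4 = 1 - 2 * dl σ := by unfold dl; ring
  have hU := prodsq (Finset.range (2 * n)) y (fun j => zc n σ y - (j : ℂ)) (fun j => zc n σ 0 - (j : ℂ))
    (fun j => 2 * (n : ℝ) - dl σ - j)
    (fun j hj => by
      have := cast_lt (Finset.mem_range.1 hj)
      have : 0 < 2 * (n : ℝ) - dl σ - j := by linarith
      exact this.ne')
    (fun j _ => by unfold zc dl; push_cast; ring)
    (fun j _ => by unfold zc dl; push_cast; ring)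
  have hZ := prodsq (Finset.range (2 * n)) y (fun j => zc n σ y - ((j : ℂ) + σ / 4))
    (fun j => zc n σ 0 - ((j : ℂ) + σ / 4))
    (fun j => 2 * (n : ℝ) - dl σ - (j + σ / 4))
    (fun j hj => by
      have := cast_lt (Finset.mem_range.1 hj)
      have : 0 < 2 * (n : ℝ) - dl σ - (j + σ / 4) := by rw [hσ4]; linarith
      exact this.ne')
    (fun j _ => by unfold zc dl; push_cast; ring)
    (fun j _ => by unfold zc dl; push_cast; ring)
  have hP := prodsq (Finset.Icc 1 (8 * n)) y (fun j => zc n σ y + (j : ℂ)) (fun j => zc n σ 0 + (j : ℂ))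
    (fun j => 2 * (n : ℝ) - dl σ + j)
    (fun j hj => by
      have h1 : (1 : ℝ) ≤ j := by exact_mod_cast (Finset.mem_Icc.1 hj).1
      have h2 : (0 : ℝ) ≤ n := by positivity
      have : 0 < 2 * (n : ℝ) - dl σ + j := by linarith
      exact this.ne')
    (fun j _ => by unfold zc dl; push_cast; ring)
    (fun j _ => by unfold zc dl; push_cast; ring)
  have hP0 : (∏ j ∈ Finset.Icc 1 (8 * n), ‖zc n σ 0 + (j : ℂ)‖) ≠ 0 := by
    refine Finset.prod_ne_zero_iff.2 fun j hj => ?_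
    have h1 : (1 : ℝ) ≤ j := by exact_mod_cast (Finset.mem_Icc.1 hj).1
    have h2 : (0 : ℝ) ≤ n := by positivity
    have h3 : 0 < 2 * (n : ℝ) - dl σ + j := by linarith
    have h4 : zc n σ 0 + (j : ℂ) = ((2 * (n : ℝ) - dl σ + j : ℝ) : ℂ) := by
      unfold zc dl; push_cast; ring
    rw [h4, Complex.norm_real, Real.norm_eq_abs]
    exact (abs_pos.2 h3.ne').ne'
  beta_reduce at hU hZ hP
  unfold WL
  simp only [Finset.prod_pow]
  rw [div_pow, div_pow, mul_pow, mul_pow, hU, hZ, hP]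
  change _ * rU n σ y * (_ * rZ n σ y) ^ 2 / (_ * rP n σ y) ^ 2 = _
  have hrP := (rP_pos n σ y).ne'
  generalize (∏ j ∈ Finset.Icc 1 (8 * n), ‖zc n σ 0 + (j : ℂ)‖) = c3 at hP0 ⊢
  generalize (∏ j ∈ Finset.range (2 * n), ‖zc n σ 0 - ((j : ℂ) + σ / 4)‖) = c2
  generalize (∏ j ∈ Finset.range (2 * n), ‖zc n σ 0 - (j : ℂ)‖) = c1
  field_simp

lemma rU_le {n σ : ℕ} (hσ : σ = 1 ∨ σ = 3) (y : ℝ) :
    rU n σ y ≤ ∏ m ∈ Finset.Ioc 0 (2 * n), w y m := by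
  obtain ⟨hd1, hd2⟩ := dl_bd hσ
  have e : ∏ m ∈ Finset.Ioc 0 (2 * n), w y m = ∏ j ∈ Finset.range (2 * n), w y (2 * n - j) := by
    refine Finset.prod_nbij' (fun m => 2 * n - m) (fun m => 2 * n - m) ?_ ?_ ?_ ?_ ?_
    · intro m hm; rw [Finset.mem_Ioc] at hm; rw [Finset.mem_range]; omega
    · intro m hm; rw [Finset.mem_range] at hm; rw [Finset.mem_Ioc]; omega
    · intro m hm; rw [Finset.mem_Ioc] at hm; omega
    · intro m hm; rw [Finset.mem_range] at hm; omega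
    · intro m hm
      rw [Finset.mem_Ioc] at hm
      have : 2 * n - (2 * n - m) = m := by omega
      rw [this]
  rw [e]
  refine Finset.prod_le_prod (fun j _ => by positivity) fun j hj => ?_
  have hj' := Finset.mem_range.1 hj
  have hc := cast_lt hj'
  unfold w
  rw [Nat.cast_sub hj'.le]
  push_cast
  exact fr_le _ _ _ (by linarith) (by linarith)

lemma rZ_le {n σ : ℕ} (hn : 1 ≤ n) (hσ : σ = 1 ∨ σ = 3) (y : ℝ) :
    rZ n σ y ≤ 64 * (1 + y ^ 2) * ∏ m ∈ Finset.Ioc 0 (2 * n), w y m := by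
  obtain ⟨hd1, hd2⟩ := dl_bd hσ
  have hσ4 : (σ : ℝ) / 4 = 1 - 2 * dl σ := by unfold dl; ring
  have e : rZ n σ y = ∏ i ∈ Finset.range (2 * n), (1 + y ^ 2 / ((i : ℝ) + dl σ) ^ 2) := by
    unfold rZ
    rw [← Finset.prod_range_reflect]
    refine Finset.prod_congr rfl fun j hj => ?_
    have hj' := Finset.mem_range.1 hj
    have h1 : ((2 * n - 1 - j : ℕ) : ℝ) = 2 * n - 1 - j := by
      rw [Nat.sub_sub, Nat.cast_sub (by omega)]; push_cast; ring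
    rw [h1, hσ4]
    have h2 : 2 * (n : ℝ) - dl σ - (2 * n - 1 - j + (1 - 2 * dl σ)) = j + dl σ := by ring
    rw [h2]
  obtain ⟨k, hk⟩ : ∃ k, 2 * n = k + 1 := ⟨2 * n - 1, by omega⟩
  rw [e, hk, Finset.prod_range_succ', Finset.prod_Ioc_succ_top (Nat.zero_le k)]
  have e2 : ∏ m ∈ Finset.Ioc 0 k, w y m = ∏ i ∈ Finset.range k, w y (i + 1) := by
    refine Finset.prod_nbij' (fun m => m - 1) (fun m => m + 1) ?_ ?_ ?_ ?_ ?_
    · intro m hm; rw [Finset.mem_Ioc] at hm; rw [Finset.mem_range]; omega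
    · intro m hm; rw [Finset.mem_range] at hm; rw [Finset.mem_Ioc]; omega
    · intro m hm; rw [Finset.mem_Ioc] at hm; omega
    · intro m hm; simp
    · intro m hm
      rw [Finset.mem_Ioc] at hm
      have : m - 1 + 1 = m := by omega
      rw [this]
  rw [e2]
  have h0 : (1 + y ^ 2 / (((0 : ℕ) : ℝ) + dl σ) ^ 2) ≤ 64 * (1 + y ^ 2) := by
    have hd : 0 < dl σ := by linarith
    have h3 : y ^ 2 / (((0 : ℕ) : ℝ) + dl σ) ^ 2 ≤ 64 * y ^ 2 := by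
      rw [Nat.cast_zero, zero_add, div_le_iff₀ (by positivity)]
      have : 1 ≤ 64 * dl σ ^ 2 := by nlinarith
      nlinarith [sq_nonneg y]
    nlinarith [sq_nonneg y]
  have h1 : ∏ i ∈ Finset.range k, (1 + y ^ 2 / (((i + 1 : ℕ) : ℝ) + dl σ) ^ 2) ≤
      ∏ i ∈ Finset.range k, w y (i + 1) := by
    refine Finset.prod_le_prod (fun j _ => by positivity) fun j hj => ?_
    unfold w
    push_cast
    have hj0 : (0 : ℝ) ≤ j := by positivity
    exact fr_le _ _ _ (by linarith) (by linarith)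
  have hp : 0 ≤ ∏ i ∈ Finset.range k, w y (i + 1) := Finset.prod_nonneg fun _ _ => (w_pos _ _).le
  calc (∏ i ∈ Finset.range k, (1 + y ^ 2 / (((i + 1 : ℕ) : ℝ) + dl σ) ^ 2)) *
        (1 + y ^ 2 / (((0 : ℕ) : ℝ) + dl σ) ^ 2)
      ≤ (∏ i ∈ Finset.range k, w y (i + 1)) * (64 * (1 + y ^ 2)) :=
        mul_le_mul h1 h0 (by positivity) hp
    _ = 64 * (1 + y ^ 2) * (∏ i ∈ Finset.range k, w y (i + 1)) := by ring
    _ ≤ 64 * (1 + y ^ 2) * ((∏ i ∈ Finset.range k, w y (i + 1)) * w y (k + 1)) := by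
        refine mul_le_mul_of_nonneg_left ?_ (by positivity)
        exact le_mul_of_one_le_right hp (one_le_w _ _)

lemma le_rP {n σ : ℕ} (hn : 1 ≤ n) (hσ : σ = 1 ∨ σ = 3) (y : ℝ) :
    (∏ m ∈ Finset.Ioc (2 * n) (10 * n), w y m) ≤ (1 + y ^ 2) * rP n σ y := by
  obtain ⟨hd1, hd2⟩ := dl_bd hσ
  have hn' : (1 : ℝ) ≤ n := by exact_mod_cast hn
  have e : ∏ m ∈ Finset.Ioc (2 * n + 1) (10 * n + 1), w y m = ∏ k ∈ Finset.Icc 1 (8 * n), w y (2 * n + 1 + k) := by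
    refine Finset.prod_nbij' (fun m => m - (2 * n + 1)) (fun m => 2 * n + 1 + m) ?_ ?_ ?_ ?_ ?_
    · intro m hm; rw [Finset.mem_Ioc] at hm; rw [Finset.mem_Icc]; omega
    · intro m hm; rw [Finset.mem_Icc] at hm; rw [Finset.mem_Ioc]; omega
    · intro m hm; rw [Finset.mem_Ioc] at hm; omega
    · intro m hm; rw [Finset.mem_Icc] at hm; omega
    · intro m hm
      rw [Finset.mem_Ioc] at hm
      have : 2 * n + 1 + (m - (2 * n + 1)) = m := by omega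
      rw [this]
  have h1 : ∏ m ∈ Finset.Ioc (2 * n + 1) (10 * n + 1), w y m ≤ rP n σ y := by
    rw [e]
    refine Finset.prod_le_prod (fun j _ => (w_pos _ _).le) fun k hk => ?_
    have hk1 : (1 : ℝ) ≤ k := by exact_mod_cast (Finset.mem_Icc.1 hk).1
    unfold w
    push_cast
    exact fr_le _ _ _ (by linarith) (by linarith)
  have h2 : ∏ m ∈ Finset.Ioc (2 * n) (10 * n + 1), w y m =
      w y (2 * n + 1) * ∏ m ∈ Finset.Ioc (2 * n + 1) (10 * n + 1), w y m := by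
    rw [← Finset.prod_Ioc_consecutive (fun m => w y m) (show 2 * n ≤ 2 * n + 1 by omega)
      (show 2 * n + 1 ≤ 10 * n + 1 by omega), Finset.prod_Ioc_succ_top (le_refl (2 * n)), Finset.Ioc_self,
      Finset.prod_empty, one_mul]
  have h3 : ∏ m ∈ Finset.Ioc (2 * n) (10 * n + 1), w y m =
      (∏ m ∈ Finset.Ioc (2 * n) (10 * n), w y m) * w y (10 * n + 1) :=
    Finset.prod_Ioc_succ_top (show 2 * n ≤ 10 * n by omega) _
  have hp : 0 ≤ ∏ m ∈ Finset.Ioc (2 * n) (10 * n), w y m := Finset.prod_nonneg fun _ _ => (w_pos _ _).le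
  have hp2 : 0 ≤ ∏ m ∈ Finset.Ioc (2 * n + 1) (10 * n + 1), w y m :=
    Finset.prod_nonneg fun _ _ => (w_pos _ _).le
  have h4 : w y (2 * n + 1) ≤ 1 + y ^ 2 := by
    unfold w
    push_cast
    have : y ^ 2 / (2 * (n : ℝ) + 1 - 1 / 2) ^ 2 ≤ y ^ 2 := by
      apply div_le_self (sq_nonneg y)
      nlinarith
    linarith
  calc (∏ m ∈ Finset.Ioc (2 * n) (10 * n), w y m)
      ≤ (∏ m ∈ Finset.Ioc (2 * n) (10 * n), w y m) * w y (10 * n + 1) :=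
        le_mul_of_one_le_right hp (one_le_w _ _)
    _ = w y (2 * n + 1) * ∏ m ∈ Finset.Ioc (2 * n + 1) (10 * n + 1), w y m := by rw [← h3, h2]
    _ ≤ (1 + y ^ 2) * rP n σ y := mul_le_mul h4 h1 hp2 (by positivity)

end G1Ax

open G1Ax in
/-- comparison of `WL` with the product over all half integers; the distances `i+1-δ` (zeros of `U`, `i < 2n`),
`i+δ` (zeros of `Z`), `2n-δ+k` (poles) with `δ = (4-σ)/8 ≤ 1/2` are compared with half integers -/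
theorem G1_ratio {n σ : ℕ} (hn : 1 ≤ n) (hσ : σ = 1 ∨ σ = 3) (y : ℝ) (M : ℕ) (hM : 10 * n + 1 ≤ M) :
    (WL n σ y * Real.exp (-(2 * Real.pi * |y|))) ^ 2 *
      ((∏ m ∈ Finset.Ioc 0 (2 * n), (1 + y ^ 2 / ((m : ℝ) - 1 / 2) ^ 2)) *
       (∏ m ∈ Finset.Ioc (2 * n) (3 * n), (1 + y ^ 2 / ((m : ℝ) - 1 / 2) ^ 2) ^ 6) *
       (∏ m ∈ Finset.Ioc (3 * n) (10 * n), (1 + y ^ 2 / ((m : ℝ) - 1 / 2) ^ 2) ^ 6) *
       (∏ m ∈ Finset.Ioc (10 * n) M, (1 + y ^ 2 / ((m : ℝ) - 1 / 2) ^ 2) ^ 4)) ≤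
      WL n σ 0 ^ 2 * (64 * (1 + y ^ 2)) ^ 12 := by
  have hw : ∀ m : ℕ, 1 + y ^ 2 / ((m : ℝ) - 1 / 2) ^ 2 = w y m := fun m => rfl
  simp only [hw, Finset.prod_pow]
  have hB : (∏ m ∈ Finset.Ioc (2 * n) (3 * n), w y m) * (∏ m ∈ Finset.Ioc (3 * n) (10 * n), w y m) =
      ∏ m ∈ Finset.Ioc (2 * n) (10 * n), w y m :=
    Finset.prod_Ioc_consecutive _ (by omega) (by omega)
  have hHM : HM y M = (∏ m ∈ Finset.Ioc 0 (2 * n), w y m) * (∏ m ∈ Finset.Ioc (2 * n) (10 * n), w y m) *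
      (∏ m ∈ Finset.Ioc (10 * n) M, w y m) := by
    rw [HM_w, Finset.prod_Ioc_consecutive _ (by omega) (by omega),
      Finset.prod_Ioc_consecutive _ (by omega) (by omega)]
  have hpos : ∀ s : Finset ℕ, 0 < ∏ m ∈ s, w y m := fun s => Finset.prod_pos fun m _ => w_pos y m
  have hU := rU_le (n := n) hσ y
  have hZ := rZ_le hn hσ y
  have hP := le_rP hn hσ y
  have hUp := rU_pos n σ y
  have hZp := rZ_pos n σ y
  have hPp := rP_pos n σ y
  have hE1 := HM_le y M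
  rw [hHM] at hE1
  have hreg : (∏ m ∈ Finset.Ioc 0 (2 * n), w y m) * (∏ m ∈ Finset.Ioc (2 * n) (3 * n), w y m) ^ 6 *
      (∏ m ∈ Finset.Ioc (3 * n) (10 * n), w y m) ^ 6 * (∏ m ∈ Finset.Ioc (10 * n) M, w y m) ^ 4 =
      (∏ m ∈ Finset.Ioc 0 (2 * n), w y m) * (∏ m ∈ Finset.Ioc (2 * n) (10 * n), w y m) ^ 6 *
        (∏ m ∈ Finset.Ioc (10 * n) M, w y m) ^ 4 := by
    rw [← hB]; ring
  rw [hreg, mul_pow, WL_sq hσ y]
  have hA0 := hpos (Finset.Ioc 0 (2 * n))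
  have hB0 := hpos (Finset.Ioc (2 * n) (10 * n))
  have hD0 := hpos (Finset.Ioc (10 * n) M)
  generalize (∏ m ∈ Finset.Ioc 0 (2 * n), w y m) = A at *
  generalize (∏ m ∈ Finset.Ioc (2 * n) (10 * n), w y m) = B at *
  generalize (∏ m ∈ Finset.Ioc (10 * n) M, w y m) = D at *
  have hY1 : 1 ≤ 1 + y ^ 2 := le_add_of_nonneg_right (sq_nonneg y)
  have hE : Real.exp (-(2 * Real.pi * |y|)) ^ 2 * (A * B * D) ^ 4 ≤ 1 := by
    have h2 : 0 ≤ A * B * D := by positivity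
    have h3 : (A * B * D) ^ 4 ≤ Real.exp (Real.pi * |y|) ^ 4 := pow_le_pow_left₀ h2 hE1 4
    calc Real.exp (-(2 * Real.pi * |y|)) ^ 2 * (A * B * D) ^ 4
        ≤ Real.exp (-(2 * Real.pi * |y|)) ^ 2 * Real.exp (Real.pi * |y|) ^ 4 :=
          mul_le_mul_of_nonneg_left h3 (by positivity)
      _ = 1 := by
          rw [← Real.exp_nat_mul, ← Real.exp_nat_mul, ← Real.exp_add]
          have : ((2 : ℕ) : ℝ) * -(2 * Real.pi * |y|) + ((4 : ℕ) : ℝ) * (Real.pi * |y|) = 0 := by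
            push_cast; ring
          rw [this, Real.exp_zero]
  have he0 : 0 ≤ Real.exp (-(2 * Real.pi * |y|)) ^ 2 := by positivity
  generalize Real.exp (-(2 * Real.pi * |y|)) ^ 2 = e2 at hE he0 ⊢
  generalize 1 + y ^ 2 = Y at *
  generalize rU n σ y = u at *
  generalize rZ n σ y = v at *
  generalize rP n σ y = p at *
  have hY0 : 0 < Y := by linarith
  have h1 : u * v ^ 2 / p ^ 2 ≤ A * (64 * Y * A) ^ 2 * Y ^ 2 / B ^ 2 := by
    rw [div_le_div_iff₀ (by positivity) (by positivity)]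
    have ha : u * v ^ 2 ≤ A * (64 * Y * A) ^ 2 := by gcongr
    have hb : B ^ 2 ≤ (Y * p) ^ 2 := by gcongr
    calc u * v ^ 2 * B ^ 2 ≤ (A * (64 * Y * A) ^ 2) * (Y * p) ^ 2 := by gcongr
      _ = _ := by ring
  calc WL n σ 0 ^ 2 * (u * v ^ 2 / p ^ 2) * e2 * (A * B ^ 6 * D ^ 4)
      ≤ WL n σ 0 ^ 2 * (A * (64 * Y * A) ^ 2 * Y ^ 2 / B ^ 2) * e2 * (A * B ^ 6 * D ^ 4) := by gcongr
    _ = WL n σ 0 ^ 2 * ((64 * Y) ^ 2 * Y ^ 2) * (e2 * (A * B * D) ^ 4) := by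
        field_simp
    _ ≤ WL n σ 0 ^ 2 * ((64 * Y) ^ 2 * Y ^ 2) * 1 := by gcongr
    _ ≤ WL n σ 0 ^ 2 * (64 * Y) ^ 12 := by
        rw [mul_one]
        refine mul_le_mul_of_nonneg_left ?_ (sq_nonneg _)
        have h64 : 1 ≤ 64 * Y := by linarith
        calc (64 * Y) ^ 2 * Y ^ 2 ≤ (64 * Y) ^ 2 * (64 * Y) ^ 2 := by gcongr; linarith
          _ = (64 * Y) ^ 4 := by ring
          _ ≤ (64 * Y) ^ 12 := pow_le_pow_right₀ h64 (by norm_num)

end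

end Pool.Agent.QG.LG
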