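import Pool.Agent.H397R2.QF.H383G1Mx
import Pool.Agent.H397R2.QF.H383G1A
import Pool.Agent.H383.QG.G1Z

/-! The size of `WL` on the line. -/

namespace Pool.Agent.QG.LG

theorem G1_main : ∃ (C : ℝ) (K : ℕ), 0 < C ∧ ∀ N σ : ℕ, 1 ≤ N → (σ = 1 ∨ σ = 3) → ∀ n : ℕ, n = 24 * N + 1 →
    ∀ y : ℝ, WL n σ y * (n : ℝ) ^ (10 * n) * Real.exp (-(2 * Real.pi * |y|)) * (1 + y ^ 2) ^ 6 *
      FXpG ((y / n) ^ 2) ^ N ≤ C * (n : ℝ) ^ K * Real.exp (n * PhiG) :=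
  G1_main_of G1_zero G1_ratio

end Pool.Agent.QG.LG
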