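import Pool.Agent.H337R2.LZ.F6

/-! Project QG: PB, upper bound for the superfactorials (helper387). -/

open Filter Topology Pool.Agent.LZ

namespace Pool.Agent.H346R2.QG

theorem PB_step {x : ℝ} (hx : 1 ≤ x) : x * Real.log x - x ≤ F6_G (x + 1) - F6_G x := by
  have hcont : ContinuousOn F6_G (Set.Icc x (x + 1)) := fun y hy =>
    (F6_deriv (by linarith [hy.1])).continuousAt.continuousWithinAt
  obtain ⟨ξ, hξ, he⟩ := exists_hasDerivAt_eq_slope F6_G (fun y => y * Real.log y - y)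
    (by linarith) hcont (fun y hy => F6_deriv (by linarith [hy.1]))
  have h1 : F6_G (x + 1) - F6_G x = ξ * Real.log ξ - ξ := by
    rw [he]
    have : x + 1 - x = 1 := by ring
    rw [this, div_one]
  rw [h1]
  exact F6_mono hx hξ.1.le

theorem PB_fac (n : ℕ) : Real.log ((n + 1).factorial : ℝ) ≤
    ((n : ℝ) + 2) * Real.log ((n : ℝ) + 1) - n := by
  induction n with
  | zero => simp
  | succ n ih =>
    have hn0 : (0 : ℝ) ≤ n := Nat.cast_nonneg n
    rw [Nat.factorial_succ, Nat.cast_mul, Real.log_mul (by positivity) (by positivity)]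
    push_cast
    have h1 : Real.log (((n : ℝ) + 1) / ((n : ℝ) + 1 + 1)) ≤ ((n : ℝ) + 1) / ((n : ℝ) + 1 + 1) - 1 :=
      Real.log_le_sub_one_of_pos (by positivity)
    rw [Real.log_div (by positivity) (by positivity)] at h1
    have h2 : ((n : ℝ) + 1 + 1) * (((n : ℝ) + 1) / ((n : ℝ) + 1 + 1) - 1) = -1 := by
      field_simp
      ring
    have h3 := mul_le_mul_of_nonneg_left h1 (show (0 : ℝ) ≤ (n : ℝ) + 1 + 1 by positivity)
    rw [h2] at h3
    nlinarith [ih, h3]

theorem PB_ind (K : ℕ) : ∑ i ∈ Finset.range (K + 1), Real.log (i.factorial : ℝ) ≤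
    F6_G ((K : ℝ) + 1) + 3 / 4 + ((K : ℝ) + 1) * Real.log ((K : ℝ) + 1) + K := by
  induction K with
  | zero =>
    unfold F6_G
    simp
  | succ K ih =>
    rw [Finset.sum_range_succ]
    have hK : (0 : ℝ) ≤ K := Nat.cast_nonneg K
    have h1 := PB_step (x := (K : ℝ) + 1) (by linarith)
    have h2 := PB_fac K
    have h3 : Real.log ((K : ℝ) + 1) ≤ Real.log ((K : ℝ) + 1 + 1) :=
      Real.log_le_log (by positivity) (by linarith)
    push_cast
    have h4 := mul_le_mul_of_nonneg_left h3 (show (0 : ℝ) ≤ (K : ℝ) + 1 + 1 by positivity)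
    nlinarith [h1, h2, h4, ih]

theorem PB_proof : ∀ ε : ℝ, 0 < ε → ∀ᶠ n : ℕ in atTop,
    2 * ∑ i ∈ Finset.range (7 * n), Real.log (i.factorial : ℝ) ≤
      49 * (n : ℝ) ^ 2 * Real.log n + (49 * Real.log 7 - 147 / 2 + ε) * (n : ℝ) ^ 2 := by
  intro ε hε
  have hlog : Tendsto (fun x : ℝ => Real.log x / x) atTop (𝓝 0) := by
    have := Real.isLittleO_log_id_atTop.tendsto_div_nhds_zero
    simpa using this
  have h7 : Tendsto (fun n : ℕ => (7 * (n : ℝ))) atTop atTop :=
    tendsto_natCast_atTop_atTop.const_mul_atTop (by norm_num)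
  have hl2 := (hlog.comp h7).eventually (gt_mem_nhds (show (0 : ℝ) < ε / 196 by positivity))
  have hl3 := (tendsto_natCast_atTop_atTop (R := ℝ)).eventually (eventually_ge_atTop (32 / ε))
  filter_upwards [hl2, hl3, eventually_ge_atTop 1] with n h1 h3 hn
  have hn' : (1 : ℝ) ≤ n := by exact_mod_cast hn
  have hn0 : (0 : ℝ) < n := by linarith
  have h2 := PB_ind (7 * n - 1)
  rw [show 7 * n - 1 + 1 = 7 * n by omega] at h2
  have e0 : ((7 * n - 1 : ℕ) : ℝ) + 1 = 7 * n := by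
    rw [Nat.cast_sub (by omega)]
    push_cast
    ring
  have e1 : ((7 * n - 1 : ℕ) : ℝ) = 7 * n - 1 := by linarith
  rw [e0, e1] at h2
  have e4 : F6_G (7 * (n : ℝ)) = 49 / 2 * (n : ℝ) ^ 2 * Real.log n +
      (49 / 2 * Real.log 7 - 147 / 4) * (n : ℝ) ^ 2 := by
    unfold F6_G
    rw [Real.log_mul (by norm_num) hn0.ne']
    ring
  rw [e4] at h2
  have h8 : Real.log (7 * n) < ε / 196 * (7 * n) := by
    have h9 : Real.log (7 * (n : ℝ)) / (7 * n) < ε / 196 := h1
    rwa [div_lt_iff₀ (by positivity)] at h9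
  have h10 : (7 * (n : ℝ)) * Real.log (7 * n) ≤ ε / 4 * (n : ℝ) ^ 2 := by
    have := mul_le_mul_of_nonneg_left h8.le (show (0 : ℝ) ≤ 7 * n by positivity)
    refine this.trans (le_of_eq ?_)
    ring
  have h11 : 16 * (n : ℝ) ≤ ε / 2 * (n : ℝ) ^ 2 := by
    have h12 : 32 ≤ ε * n := by
      rw [div_le_iff₀ hε] at h3
      linarith
    nlinarith [h12, hn0]
  nlinarith [h2, h10, h11]

end Pool.Agent.H346R2.QG
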