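import Pool.Agent.H397R2.QF.H3462PDefs

/-! Project QG: PC1 (helper387). -/

namespace Pool.Agent.H346R2.QG

theorem PC1_proof (n σ p : ℕ) (hp : 0 < p) (hpn : p ≤ 2 * n) : 20 * (E2 n σ p - SF n p) ≤ 280 * n + 6 * p := by
  have hdm : ∀ m : ℕ, m % p < p ∧ m = (m / p) * p + m % p := fun m =>
    ⟨Nat.mod_lt _ hp, by rw [mul_comm]; exact (Nat.div_add_mod m p).symm⟩
  obtain ⟨c, d, hd, hn⟩ : ∃ c d, d < p ∧ n = c * p + d := ⟨n / p, n % p, hdm n⟩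
  obtain ⟨a, b, hb, h8⟩ : ∃ a b, b < p ∧ 8 * d = a * p + b := ⟨_, _, hdm (8 * d)⟩
  obtain ⟨e, f, hf, h2⟩ : ∃ e f, f < p ∧ 2 * d = e * p + f := ⟨_, _, hdm (2 * d)⟩
  obtain ⟨g, h, hh, h7⟩ : ∃ g h, h < p ∧ 7 * d = g * p + h := ⟨_, _, hdm (7 * d)⟩
  have ha7 : a ≤ 7 := by
    by_contra hc
    have : 8 * p ≤ a * p := Nat.mul_le_mul_right _ (by omega)
    omega
  have he1 : e ≤ 1 := by
    by_contra hc
    have : 2 * p ≤ e * p := Nat.mul_le_mul_right _ (by omega)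
    omega
  have hg6 : g ≤ 6 := by
    by_contra hc
    have : 7 * p ≤ g * p := Nat.mul_le_mul_right _ (by omega)
    omega
  have u1 := (Nat.div_mod_unique (a := n) (b := p) (c := d) (d := c) hp).2 ⟨by rw [hn]; ring, hd⟩
  have u8 := (Nat.div_mod_unique (a := 8 * n) (b := p) (c := b) (d := 8 * c + a) hp).2
    ⟨by rw [hn, mul_add 8, h8]; ring, hb⟩
  have u2 := (Nat.div_mod_unique (a := 2 * n) (b := p) (c := f) (d := 2 * c + e) hp).2
    ⟨by rw [hn, mul_add 2, h2]; ring, hf⟩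
  have u7 := (Nat.div_mod_unique (a := 7 * n) (b := p) (c := h) (d := 7 * c + g) hp).2
    ⟨by rw [hn, mul_add 7, h7]; ring, hh⟩
  have h4 : 8 * c + a ≠ 1 := by
    intro hc
    have hc0 : c = 0 := by omega
    have ha1 : a = 1 := by omega
    subst hc0 ha1
    omega
  unfold E2 SF
  rw [u1.1, u1.2, u8.1, u8.2, u2.1, u2.2, u7.1, u7.2, if_neg h4]
  have z8 : (b : ℤ) = 8 * d - a * p := by
    have : (8 : ℤ) * d = a * p + b := by exact_mod_cast h8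
    linarith
  have z2 : (f : ℤ) = 2 * d - e * p := by
    have : (2 : ℤ) * d = e * p + f := by exact_mod_cast h2
    linarith
  have z7 : (h : ℤ) = 7 * d - g * p := by
    have : (7 : ℤ) * d = g * p + h := by exact_mod_cast h7
    linarith
  have zn : (n : ℤ) = c * p + d := by exact_mod_cast hn
  obtain ⟨X, hX⟩ : ∃ X : ℤ, X = ((b + f - p : ℕ) : ℤ) := ⟨_, rfl⟩
  obtain ⟨Y, hY⟩ : ∃ Y : ℤ, Y = ((min d f : ℕ) : ℤ) := ⟨_, rfl⟩
  rw [← hX, ← hY]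
  have hY1 : Y ≤ d := by rw [hY]; exact_mod_cast min_le_left _ _
  have hY2 : Y ≤ f := by rw [hY]; exact_mod_cast min_le_right _ _
  have hX1 : (b : ℤ) + f - p ≤ X := by rw [hX]; omega
  have hX0 : 0 ≤ X := by rw [hX]; positivity
  clear hX hY
  have key : 7 * (n : ℤ) + ((8 * c + a : ℕ) : ℤ) ^ 2 * (p : ℤ) + (2 * ((8 * c + a : ℕ) : ℤ) + 1) * (b : ℤ)
    - (c : ℤ) ^ 2 * (p : ℤ) - (2 * (c : ℤ) + 1) * (d : ℤ)
    - 8 * (n : ℤ) * ((2 * c + e : ℕ) : ℤ) - ((8 * c + a : ℕ) : ℤ) * (f : ℤ)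
    - X
    + (n : ℤ) * ((2 * c + e : ℕ) : ℤ) + (c : ℤ) * (f : ℤ)
    + Y - 0 - ((p : ℤ) * ((7 * c + g : ℕ) : ℤ) * (((7 * c + g : ℕ) : ℤ) - 1) +
      2 * ((7 * c + g : ℕ) : ℤ) * (h : ℤ)) = 14 * n + d * (14 * a - 7 * e - 14 * g) +
      p * (- a ^ 2 - a + a * e + g ^ 2 + g) - X + Y := by
    rw [z8, z2, z7, zn]
    push_cast
    ring
  rw [key]
  have hd' : (d : ℤ) < p := by exact_mod_cast hd
  have hb0 : (0 : ℤ) ≤ b := by positivity
  have hf0 : (0 : ℤ) ≤ f := by positivity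
  have hh0 : (0 : ℤ) ≤ h := by positivity
  have hb' : (b : ℤ) < p := by exact_mod_cast hb
  have hf' : (f : ℤ) < p := by exact_mod_cast hf
  have hh' : (h : ℤ) < p := by exact_mod_cast hh
  clear key u1 u8 u2 u7 h4 hdm h8 h2 h7 hn hd hb hf hh hpn hp zn
  interval_cases a <;> interval_cases e <;> interval_cases g <;> push_cast at * <;> omega

end Pool.Agent.H346R2.QG
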