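import Pool.Agent.H216R2.QZ.Z7
import Pool.Agent.H397R2.QF.H383LGfin
import Pool.Agent.H383.QG.G5
import Pool.Agent.H387R3.QG.BL

/-! The archimedean bound (helper216: zone, helper383: line, helper387: the linear form). -/

open Polynomial Filter Topology Pool.Agent.H337R2

namespace Pool.Agent.H397R2.QG

theorem G7_arch (σ : ℕ) (hσ : σ = 1 ∨ σ = 3) (u : ℚ) (hu : theta σ = (u : ℝ)) :
    ∀ ε : ℝ, 0 < ε → ∀ᶠ N : ℕ in atTop, ∀ n : ℕ, n = 24 * N + 1 → DET n σ u (7 * n) ≠ 0 →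
      Real.log |((DET n σ u (7 * n) : ℚ) : ℝ)| ≤
        -49 * (n : ℝ) ^ 2 * Real.log n + (-208 + ε) * (n : ℝ) ^ 2 :=
  Pool.Agent.H216R2.QZ.G7_arch_of σ hσ u (fun n hn Q hQ B hB => B2_NL_le n σ hn hσ u hu Q hQ B hB)
    (Pool.Agent.QG.LG.G4_rows σ hσ) Pool.Agent.QG.LG.G5_num

end Pool.Agent.H397R2.QG
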