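import Pool.Agent.H397R2.QG.Defs
import Pool.Agent.H336R2.HD.A5

/-!
# ZM: assembly (the three inputs `H6`, `G7`, `P` are hypotheses)
-/

open Polynomial Pool.Agent.H337R2 Filter Topology MeasureTheory

namespace Pool.Agent.H397R2.QG

noncomputable section

/-- the numbers `theta 1`, `theta 3` are irrational -/
theorem ZM_theta
    (H6 : ∀ (σ : ℕ) (_ : σ = 1 ∨ σ = 3) (u : ℚ), ∃ p0 : ℕ, ∀ p : ℕ, p0 ≤ p → p.Prime →
      DET p σ u (7 * p) ≠ 0)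
    (G7 : ∀ (σ : ℕ) (_ : σ = 1 ∨ σ = 3) (u : ℚ) (_ : theta σ = (u : ℝ)),
      ∀ ε : ℝ, 0 < ε → ∀ᶠ N : ℕ in atTop, ∀ n : ℕ, n = 24 * N + 1 → DET n σ u (7 * n) ≠ 0 →
        Real.log |((DET n σ u (7 * n) : ℚ) : ℝ)| ≤
          -49 * (n : ℝ) ^ 2 * Real.log n + (-208 + ε) * (n : ℝ) ^ 2)
    (P : ∀ (σ q : ℕ) (_ : σ = 1 ∨ σ = 3) (u : ℚ) (_ : UInt q u), ∀ᶠ n : ℕ in atTop, n.Prime →
      ∃ (S : Finset ℕ) (B : ℕ → ℝ), (∀ p ∈ S, p.Prime ∧ 0 < B p) ∧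
        (∀ p ∈ S, ((padicNorm p ((q : ℚ) ^ (7 * n) * DET n σ u (7 * n)) : ℚ) : ℝ) ≤ B p) ∧
        (∀ p, p.Prime → p ∉ S → padicNorm p ((q : ℚ) ^ (7 * n) * DET n σ u (7 * n)) ≤ 1) ∧
        ∑ p ∈ S, Real.log (B p) ≤ 49 * (n : ℝ) ^ 2 * Real.log n + 206 * (n : ℝ) ^ 2)
    (σ : ℕ) (hσ : σ = 1 ∨ σ = 3) : Irrational (theta σ) := by
  intro hcon
  obtain ⟨u, hu⟩ := hcon
  have hu' : theta σ = (u : ℝ) := hu.symm
  have hUI : UInt u.den u := by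
    refine ⟨u.den_pos, u.num, ?_⟩
    rw [mul_comm]
    exact Rat.mul_den_eq_num u
  obtain ⟨p0, hH6⟩ := H6 σ hσ u
  obtain ⟨N1, hN1⟩ := eventually_atTop.1 (G7 σ hσ u hu' (1 / 10) (by norm_num))
  have ev9 : ∀ᶠ n : ℕ in atTop, 7 * Real.log u.den ≤ 1 / 10 * (n : ℝ) := by
    have := (tendsto_natCast_atTop_atTop (R := ℝ)).const_mul_atTop (show (0 : ℝ) < 1 / 10 by norm_num)
    exact this.eventually_ge_atTop _
  obtain ⟨N2, hN2⟩ := eventually_atTop.1 ((P σ u.den hσ u hUI).and ev9)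
  obtain ⟨n, hnp, hngt, hnmod⟩ := Nat.exists_prime_gt_modEq_one (k := 24) (24 * N1 + N2 + p0 + 48)
    (by norm_num)
  obtain ⟨N, hN⟩ : ∃ N, n = 24 * N + 1 := by
    have h1 : n % 24 = 1 := hnmod
    exact ⟨n / 24, by omega⟩
  have hDne : DET n σ u (7 * n) ≠ 0 := hH6 n (by omega) hnp
  have g1 := hN1 N (by omega) n hN hDne
  obtain ⟨g2, g9⟩ := hN2 n (by omega)
  obtain ⟨S, B, hS1, hS2, hS3, hS4⟩ := g2 hnp
  have hn0 : (0 : ℝ) < n := by exact_mod_cast (by omega : 0 < n)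
  have hq0 : 0 < u.den := u.den_pos
  have hqr : (0 : ℝ) < u.den := by exact_mod_cast hq0
  obtain ⟨z, hz⟩ : ∃ z : ℚ, z = ((u.den : ℕ) : ℚ) ^ (7 * n) * DET n σ u (7 * n) := ⟨_, rfl⟩
  have hz0 : z ≠ 0 := by
    rw [hz]
    exact mul_ne_zero (pow_ne_zero _ (by exact_mod_cast hq0.ne')) hDne
  have hpf := Pool.Agent.H336R2.HD.A5_prod_formula z hz0 S (fun p hp => (hS1 p hp).1) B
    (fun p hp => by rw [hz]; exact hS2 p hp) (fun p hp hpS => by rw [hz]; exact hS3 p hp hpS)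
  have hprodpos : 0 < ∏ p ∈ S, B p := Finset.prod_pos fun p hp => (hS1 p hp).2
  have hzabs : 0 < |(z : ℝ)| := abs_pos.2 (by exact_mod_cast hz0)
  have hlog := Real.log_nonneg hpf
  rw [Real.log_mul hzabs.ne' hprodpos.ne', Real.log_prod (fun p hp => (hS1 p hp).2.ne')] at hlog
  have hzlog : Real.log |(z : ℝ)| = (7 * n : ℝ) * Real.log u.den +
      Real.log |((DET n σ u (7 * n) : ℚ) : ℝ)| := by
    rw [hz]
    push_cast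
    rw [abs_mul, Real.log_mul (by positivity) (abs_pos.2 (by exact_mod_cast hDne)).ne',
      abs_of_pos (by positivity), Real.log_pow]
    push_cast
    ring
  have hfin : (7 * n : ℝ) * Real.log u.den ≤ 1 / 10 * (n : ℝ) ^ 2 := by
    have := mul_le_mul_of_nonneg_right g9 hn0.le
    nlinarith
  have hn2 : (0 : ℝ) < (n : ℝ) ^ 2 := by positivity
  rw [hzlog] at hlog
  nlinarith

/-- final form, `Cat` is Catalan's constant (`Z0_theta1`, `Z0_theta3` are the last two hypotheses) -/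
theorem ZM_main
    (H6 : ∀ (σ : ℕ) (_ : σ = 1 ∨ σ = 3) (u : ℚ), ∃ p0 : ℕ, ∀ p : ℕ, p0 ≤ p → p.Prime →
      DET p σ u (7 * p) ≠ 0)
    (G7 : ∀ (σ : ℕ) (_ : σ = 1 ∨ σ = 3) (u : ℚ) (_ : theta σ = (u : ℝ)),
      ∀ ε : ℝ, 0 < ε → ∀ᶠ N : ℕ in atTop, ∀ n : ℕ, n = 24 * N + 1 → DET n σ u (7 * n) ≠ 0 →
        Real.log |((DET n σ u (7 * n) : ℚ) : ℝ)| ≤
          -49 * (n : ℝ) ^ 2 * Real.log n + (-208 + ε) * (n : ℝ) ^ 2)
    (P : ∀ (σ q : ℕ) (_ : σ = 1 ∨ σ = 3) (u : ℚ) (_ : UInt q u), ∀ᶠ n : ℕ in atTop, n.Prime →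
      ∃ (S : Finset ℕ) (B : ℕ → ℝ), (∀ p ∈ S, p.Prime ∧ 0 < B p) ∧
        (∀ p ∈ S, ((padicNorm p ((q : ℚ) ^ (7 * n) * DET n σ u (7 * n)) : ℚ) : ℝ) ≤ B p) ∧
        (∀ p, p.Prime → p ∉ S → padicNorm p ((q : ℚ) ^ (7 * n) * DET n σ u (7 * n)) ≤ 1) ∧
        ∑ p ∈ S, Real.log (B p) ≤ 49 * (n : ℝ) ^ 2 * Real.log n + 206 * (n : ℝ) ^ 2)
    (Cat : ℝ) (h1 : theta 1 = 8 * Cat + 5 * Real.pi ^ 2 / 6)
    (h3 : theta 3 = 5 * Real.pi ^ 2 / 6 - 8 * Cat) :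
    Irrational (8 * Cat + 5 * Real.pi ^ 2 / 6) ∧ Irrational (8 * Cat - 5 * Real.pi ^ 2 / 6) := by
  constructor
  · rw [← h1]
    exact ZM_theta H6 G7 P 1 (Or.inl rfl)
  · have h := (ZM_theta H6 G7 P 3 (Or.inr rfl)).neg
    rw [h3] at h
    convert h using 1
    ring

end

end Pool.Agent.H397R2.QG
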