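import Pool.Agent.H397R2.QF.H9752PG
import Pool.Agent.H397R2.QF.H3462PM
import Pool.Agent.H397R2.QF.H3873PS

/-!
# `8G ± 5π²/6`: the three pointwise p-adic bounds in the form used by the prime sum
-/

open Pool.Agent.H397R2.QG

namespace Pool.Agent.QG

theorem Pbig_holds : Pool.Agent.H346R2.QG.Pbig := fun _ _ _ _ _ _ hσ hu hn h8 => P_big hσ hu hn h8

lemma E2_eq (n σ p : ℕ) : E2 n σ p = Pool.Agent.H346R2.QG.E2 n σ p := by
  unfold E2 Pool.Agent.H346R2.QG.E2 gd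
  have : Pool.Agent.H346R2.QG.jj σ p = j0 σ p := rfl
  rw [this]
  split_ifs <;> push_cast <;> ring

theorem Pmed_holds : Pool.Agent.H346R2.QG.Pmed := fun n σ q p _ u hσ hu hn h3 h8 hp2 => by
  rw [← E2_eq]
  exact P_med hσ hu hn h3 h8 hp2

theorem Psmall_holds : Pool.Agent.H346R2.QG.Psmall := by
  obtain ⟨C, hC⟩ := Pool.Agent.H397R2.QG.P_small
  exact ⟨C, fun n σ q p hp u hσ hu hn _ => hC n σ q p u hn hσ hu hp.out⟩

end Pool.Agent.QG
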