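import Pool.Agent.H397R2.QF.H3462PA
import Pool.Agent.H397R2.QF.H3462PA2
import Pool.Agent.H397R2.QF.H3462PC2
import Pool.Agent.H397R2.QF.H3462PM
import Pool.Agent.H397R2.QF.H9752Fin
import Pool.Agent.H397R2.QF.H3873PS
import Pool.Agent.H397R2.QF.H3873PC1
import Pool.Agent.H397R2.QF.H3873PB

/-! Project QG: `P_main`, assembly of the p-adic side. -/

open Filter Topology Pool.Agent.H337R2 Pool.Agent.H397R2.QG

namespace Pool.Agent.QG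

open Pool.Agent.H346R2.QG

theorem P_main_fin (σ q : ℕ) (hσ : σ = 1 ∨ σ = 3) (u : ℚ) (hu : UInt q u) : ∀ᶠ n : ℕ in atTop,
    ∃ (S : Finset ℕ) (B : ℕ → ℝ), (∀ p ∈ S, p.Prime ∧ 0 < B p) ∧
      (∀ p ∈ S, ((padicNorm p ((q : ℚ) ^ (7 * n) * DET n σ u (7 * n)) : ℚ) : ℝ) ≤ B p) ∧
      (∀ p, p.Prime → p ∉ S → padicNorm p ((q : ℚ) ^ (7 * n) * DET n σ u (7 * n)) ≤ 1) ∧
      ∑ p ∈ S, Real.log (B p) ≤ 49 * (n : ℝ) ^ 2 * Real.log n + 206 * (n : ℝ) ^ 2 :=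
  P_main_of (fun a ha => PA a ha) (fun a ha α j h1 h2 => PA2 a ha (PA a ha) α j h1 h2) PB_proof
    (fun n σ p hp hpn => PC1_proof n σ p hp hpn) (fun n σ p h1 h2 h3 h4 => PC2 n σ p h1 h2 h3 h4)
    Pbig_holds Pmed_holds Psmall_holds σ q hσ u hu

end Pool.Agent.QG
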