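import Pool.Agent.H397R2.QF.H3972G7
import Pool.Agent.H397R2.QF.H3972H6
import Pool.Agent.H397R2.QG.Z0
import Pool.Agent.H397R2.QF.H3972ZM
import Pool.Agent.H397R2.QF.H9752Pmain

/-! Assembly: `8 G + 5 π²/6` and `8 G - 5 π²/6` are irrational. -/

open Filter Topology

namespace Pool.Agent.H397R2.QG

theorem Z_final : Irrational (8 * Cat + 5 * Real.pi ^ 2 / 6) ∧ Irrational (8 * Cat - 5 * Real.pi ^ 2 / 6) :=
  ZM_main (fun σ hσ u => H6_nonvanish σ hσ u) (fun σ hσ u hu => G7_arch σ hσ u hu)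
    (fun σ q hσ u hu => (Pool.Agent.QG.P_main_fin σ q hσ u hu).mono fun _ h _ => h) Cat Z0_theta1 Z0_theta3

end Pool.Agent.H397R2.QG
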