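import Pool.Agent.H397R2.QG.Defs
import Pool.Agent.H975R2.QG.Nod

/-!
# `8G ± 5π²/6`: bridge to the definitions of the project, bounds of the partial sums
-/

open Polynomial

namespace Pool.Agent.QG

open Pool.Agent.H337R2

open Pool.Agent.H397R2.QG (fs NL DET PPn sQ m2 xf xfL NL_apply UInt j0)

noncomputable section

lemma fs1 (σ k : ℕ) : fs σ 1 k = gk σ k := by
  unfold fs gk
  congr 1
  · refine Finset.sum_congr rfl fun j _ => ?_
    have : (j : ℚ) + (σ : ℚ) / 4 = (4 * (j : ℚ) + σ) / 4 := by ring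
    rw [pow_one, this, one_div_div]
  · refine Finset.sum_congr rfl fun j _ => ?_
    rw [pow_one]

lemma fs2 (σ k : ℕ) : fs σ 2 k = sk σ k := by
  unfold fs sk
  congr 1
  refine Finset.sum_congr rfl fun j _ => ?_
  have : (j : ℚ) + (σ : ℚ) / 4 = (4 * (j : ℚ) + σ) / 4 := by ring
  rw [this, div_pow, one_div_div]
  norm_num

lemma UU_eq (n : ℕ) : UU n = PPn n := by
  unfold UU PPn
  refine Finset.prod_congr rfl fun i _ => ?_
  push_cast
  rw [sub_eq_add_neg, map_neg]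

lemma NL_xg (n σ : ℕ) (u : ℚ) (P : ℚ[X]) : NL n σ u P = xg n u (fs σ 1) (fs σ 2) (UU n * P) := by
  rw [NL_apply, UU_eq]
  unfold xf xg sQ sN
  refine Finset.sum_congr rfl fun k _ => ?_
  have h2 : ∀ i j : ℕ, i ≤ 2 → 2 - i = j → pa (Finset.Icc 1 (8 * n)) m2 (PPn n * P) k i =
      pfc (Finset.Icc 1 (8 * n)) two (PPn n * P) k j := by
    intro i j hi hj
    unfold pa
    have : m2 k = 2 := rfl
    rw [this, if_pos hi, hj]
    rfl
  rw [h2 2 0 le_rfl rfl, h2 1 1 (by norm_num) rfl]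

lemma DET_eq (n σ m : ℕ) (u : ℚ) : DET n σ u m = (Pool.Agent.LP.HkQ (NL n σ u) m).det := rfl

variable {p : ℕ} [hp : Fact p.Prime]

/-- the partial sums, `p² > 32 n + 3` -/
lemma fs_med {σ n k : ℕ} (hσ : σ ≤ 3) (hσ1 : 1 ≤ σ) (hp2 : 32 * n + 3 < p ^ 2) (hk : k ≤ 8 * n) :
    padicNorm p (fs σ 1 k) ≤ p ∧ padicNorm p (fs σ 2 k) ≤ (p : ℚ) ^ 2 := by
  rw [fs1, fs2]
  have hp1 : (1 : ℚ) ≤ p := by exact_mod_cast hp.out.one_le
  refine n_sums hp1 (fun j hj => ?_) fun j h1 hj => ?_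
  · have := n_inv_nat (p := p) (j := 4 * j + σ) (k := 1) (by omega) (by
      rw [show 1 + 1 = 2 by rfl]; omega)
    rwa [pow_one] at this
  · have := n_inv_nat (p := p) (j := j) (k := 1) (by omega) (by
      rw [show 1 + 1 = 2 by rfl]; omega)
    rwa [pow_one] at this

/-- the partial sums are integral up to `min (j0, p)` -/
lemma fs_small {σ k : ℕ} (hk : k ≤ p) (hj : ∀ j, j < k → ¬ p ∣ 4 * j + σ) :
    padicNorm p (fs σ 1 k) ≤ 1 ∧ padicNorm p (fs σ 2 k) ≤ 1 := by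
  rw [fs1, fs2]
  have := n_sums (p := p) (a := σ) (k := k) (B := 1) le_rfl (fun j hjk => n_inv_unit (hj j hjk)) fun j h1 hjk =>
    n_inv_unit (Nat.not_dvd_of_pos_of_lt (by omega) (by omega))
  simpa using this

lemma j0_lt {σ : ℕ} (hσ : σ = 1 ∨ σ = 3) (hp3 : 3 ≤ p) : j0 σ p < p := by
  unfold j0
  split_ifs <;> omega

/-- no `4 j + σ`, `j < j0`, is divisible by `p` -/
lemma j0_dvd {σ : ℕ} (hσ : σ = 1 ∨ σ = 3) (hp3 : 3 ≤ p) {j : ℕ} (hj : j < j0 σ p) : ¬ p ∣ 4 * j + σ := by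
  rintro ⟨c, hc⟩
  have hodd : p % 2 = 1 := (hp.out.eq_two_or_odd).resolve_left (by omega)
  have h4 : p % 4 = 1 ∨ p % 4 = 3 := by omega
  have hlt : 4 * j + σ < 4 * p := by
    have := j0_lt hσ hp3
    rcases hσ with rfl | rfl <;> omega
  have hc4 : c < 4 := by
    by_contra h
    push Not at h
    have : p * 4 ≤ p * c := Nat.mul_le_mul_left p h
    omega
  unfold j0 at hj
  interval_cases c
  · rcases hσ with rfl | rfl <;> omega
  · rcases hσ with rfl | rfl
    · rcases h4 with h4 | h4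
      · rw [if_pos h4] at hj; omega
      · omega
    · rcases h4 with h4 | h4
      · omega
      · rw [if_pos h4] at hj; omega
  · rcases hσ with rfl | rfl <;> omega
  · rcases hσ with rfl | rfl
    · rcases h4 with h4 | h4
      · rw [if_pos h4] at hj; omega
      · rw [if_neg (by omega)] at hj; omega
    · rcases h4 with h4 | h4
      · rw [if_neg (by omega)] at hj; omega
      · rw [if_pos h4] at hj; omega

end

end Pool.Agent.QG
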