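import Pool.Agent.H397R2.QF.H9752Sm

/-!
# `8G ± 5π²/6`: medium primes
-/

open Polynomial

namespace Pool.Agent.QG

open Pool.Agent.H337R2

open Pool.Agent.H397R2.QG (fs NL DET PPn sQ m2 xf xfL NL_apply UInt j0)

noncomputable section

/-- removed nodes -/
def RR (n p : ℕ) : Finset ℕ := Finset.Icc (av n p + 1) (av n p + n)

/-- kept nodes -/
def SS (n p : ℕ) : Finset ℕ := sN n \ RR n p

lemma RR_sub {n p : ℕ} (hp : 0 < p) (hn : 1 ≤ n) (h8 : p ≤ 8 * n) : RR n p ⊆ sN n := by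
  intro k hk
  have := av_le hp hn h8
  unfold RR at hk
  unfold sN
  rw [Finset.mem_Icc] at *
  omega

lemma cI_SS {n p : ℕ} (hp : 0 < p) (hn : 1 ≤ n) (h8 : p ≤ 8 * n) (k : ℕ) :
    cI p (SS n p) k + cnt p (av n p + 1) (av n p + n) k = cS p n k := by
  unfold cI cnt cS SS
  simp only [Finset.card_filter]
  exact Finset.sum_sdiff (RR_sub hp hn h8)

lemma xx_SS {n p : ℕ} (hp : 0 < p) (hn : 1 ≤ n) (h8 : p ≤ 8 * n) (k : ℕ) :
    xx p n (SS n p) k = 2 * (cnt p (av n p + 1) (av n p + n) k : ℤ) - cnt p (av n p + 1) (av n p + 2 * n) k := by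
  unfold xx
  rw [← rU_cnt hp]
  have := cI_SS hp hn h8 k
  omega

lemma two_div {p : ℕ} (hp : 0 < p) (n : ℕ) :
    (2 * n / p = 2 * (n / p) ∧ 2 * n % p = 2 * (n % p)) ∨
      (2 * n / p = 2 * (n / p) + 1 ∧ 2 * n % p + p = 2 * (n % p)) := by
  have h1 := Nat.mod_add_div n p
  have h2 := Nat.mod_lt n hp
  rcases Nat.lt_or_ge (2 * (n % p)) p with h | h
  · left
    refine (Nat.div_mod_unique hp).2 ⟨?_, h⟩
    have : p * (2 * (n / p)) = 2 * (p * (n / p)) := by ring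
    omega
  · right
    have h3 : 2 * n / p = 2 * (n / p) + 1 ∧ 2 * n % p = 2 * (n % p) - p := by
      refine (Nat.div_mod_unique hp).2 ⟨?_, by omega⟩
      have : p * (2 * (n / p) + 1) = 2 * (p * (n / p)) + p := by ring
      omega
    exact ⟨h3.1, by omega⟩

lemma cnt_dm {p : ℕ} (hp : 0 < p) (C L k : ℕ) :
    (cnt p (C + 1) (C + L) k : ℤ) = ((L / p : ℕ) : ℤ) + fc p C (L % p) k := by
  have h := cnt_len hp C (L / p) (L % p) k (Nat.mod_lt _ hp)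
  rwa [Nat.div_add_mod'] at h

lemma xx_bd {n p : ℕ} (hp : 0 < p) (hn : 1 ≤ n) (h8 : p ≤ 8 * n) (k : ℕ) :
    -1 ≤ xx p n (SS n p) k ∧ xx p n (SS n p) k ≤ 1 := by
  rw [xx_SS hp hn h8, cnt_dm hp, cnt_dm hp]
  have h1 := two_div hp n
  have h2 := Nat.mod_lt n hp
  unfold fc
  split_ifs <;> omega

lemma sum_T {p : ℕ} (hp : 0 < p) (A M C L : ℕ) :
    ∑ k ∈ Finset.Icc (A + 1) (A + M), (cnt p (C + 1) (C + L) k : ℤ) =
      ((M : ℤ) * (L / p : ℕ) + (L % p : ℕ) * (M / p : ℕ)) +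
        ∑ j ∈ Finset.Icc (C + 1) (C + L % p), fc p A (M % p) j := by
  have h := sum_cnt hp A (M / p) (M % p) C (L / p) (L % p) (Nat.mod_lt _ hp) (Nat.mod_lt _ hp)
  rw [Nat.div_add_mod', Nat.div_add_mod'] at h
  rw [h]
  congr 2
  have := Nat.div_add_mod' M p
  have h2 : ((M : ℕ) : ℤ) = (((M / p * p + M % p : ℕ)) : ℤ) := by rw [this]
  rw [h2]
  push_cast
  ring

/-- good nodes -/
def gd (n σ p : ℕ) : ℕ := if 8 * n / p = 1 then min (j0 σ p) (p - 2 * n % p) - 8 * n % p else 0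

/-- the exponent -/
def E2 (n σ p : ℕ) : ℤ :=
  7 * n + (8 * n / p : ℕ) ^ 2 * p + (2 * (8 * n / p : ℕ) + 1) * (8 * n % p : ℕ) - (n / p : ℕ) ^ 2 * p -
    (2 * (n / p : ℕ) + 1) * (n % p : ℕ) - 8 * n * (2 * n / p : ℕ) - (8 * n / p : ℕ) * (2 * n % p : ℕ) -
    (8 * n % p + 2 * n % p - p : ℕ) + n * (2 * n / p : ℕ) + (n / p : ℕ) * (2 * n % p : ℕ) +
    (min (n % p) (2 * n % p) : ℕ) - (gd n σ p : ℕ)

lemma sum_main {n p σ : ℕ} (hp : 0 < p) (hn : 1 ≤ n) (h8 : p ≤ 8 * n) (g : ℕ → ℕ)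
    (hg : ∑ k ∈ SS n p, g k = gd n σ p) :
    ∑ k ∈ SS n p, ((cI p (SS n p) k : ℤ) - 1 + yy p n (SS n p) g k) = E2 n σ p := by
  have h1 : ∀ k ∈ SS n p, (cI p (SS n p) k : ℤ) - 1 + yy p n (SS n p) g k =
      (1 + (cnt p (0 + 1) (0 + 8 * n) k : ℤ) + (cnt p (av n p + 1) (av n p + n) k : ℤ) -
        (cnt p (av n p + 1) (av n p + 2 * n) k : ℤ)) - (g k : ℤ) := by
    intro k _
    unfold yy
    rw [xx_SS hp hn h8]
    have h2 := cI_SS hp hn h8 k
    have h3 : cS p n k = cnt p (0 + 1) (0 + 8 * n) k := by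
      unfold cS cnt sN
      rw [zero_add, zero_add]
    omega
  rw [Finset.sum_congr rfl h1, Finset.sum_sub_distrib]
  have h2 : ∑ k ∈ SS n p, ((g k : ℕ) : ℤ) = gd n σ p := by rw [← hg]; push_cast; rfl
  rw [h2]
  have h3 := Finset.sum_sdiff (f := fun k => (1 + (cnt p (0 + 1) (0 + 8 * n) k : ℤ) +
    (cnt p (av n p + 1) (av n p + n) k : ℤ) - (cnt p (av n p + 1) (av n p + 2 * n) k : ℤ))) (RR_sub hp hn h8)
  have h4 : ∑ k ∈ SS n p, (1 + (cnt p (0 + 1) (0 + 8 * n) k : ℤ) +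
    (cnt p (av n p + 1) (av n p + n) k : ℤ) - (cnt p (av n p + 1) (av n p + 2 * n) k : ℤ)) =
    ∑ k ∈ sN n, (1 + (cnt p (0 + 1) (0 + 8 * n) k : ℤ) +
    (cnt p (av n p + 1) (av n p + n) k : ℤ) - (cnt p (av n p + 1) (av n p + 2 * n) k : ℤ)) -
    ∑ k ∈ RR n p, (1 + (cnt p (0 + 1) (0 + 8 * n) k : ℤ) +
    (cnt p (av n p + 1) (av n p + n) k : ℤ) - (cnt p (av n p + 1) (av n p + 2 * n) k : ℤ)) := by
    unfold SS
    linarith
  rw [h4]
  have hsN : sN n = Finset.Icc (0 + 1) (0 + 8 * n) := by unfold sN; rw [zero_add, zero_add]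
  have hRR : RR n p = Finset.Icc (av n p + 1) (av n p + n) := rfl
  rw [hsN, hRR]
  simp only [Finset.sum_sub_distrib, Finset.sum_add_distrib, Finset.sum_const, Nat.card_Icc]
  have hsym : ∑ k ∈ Finset.Icc (0 + 1) (0 + 8 * n), (cnt p (av n p + 1) (av n p + n) k : ℤ) =
      ∑ k ∈ Finset.Icc (av n p + 1) (av n p + n), (cnt p (0 + 1) (0 + 8 * n) k : ℤ) := by
    exact_mod_cast cnt_symm p (0 + 1) (0 + 8 * n) (av n p + 1) (av n p + n)
  have hs := Nat.mod_lt (8 * n) hp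
  have hr := Nat.mod_lt (2 * n) hp
  have hq := Nat.mod_lt n hp
  rw [hsym, sum_T hp 0 (8 * n) 0 (8 * n), sum_T hp (av n p) n (av n p) n,
    sum_T hp 0 (8 * n) (av n p) (2 * n), sum_T hp (av n p) n (av n p) (2 * n),
    fc_same 0 _ _ hs, fc_same _ _ _ hq, fc_same _ _ _ hr, fc_shift _ _ _ (av_spec hp) hs]
  have e8 : ((8 * n : ℕ) : ℤ) = (8 * n / p : ℕ) * p + (8 * n % p : ℕ) := by
    have := Nat.div_add_mod' (8 * n) p
    exact_mod_cast this.symm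
  have e1 : ((n : ℕ) : ℤ) = (n / p : ℕ) * p + (n % p : ℕ) := by
    have := Nat.div_add_mod' n p
    exact_mod_cast this.symm
  have c1 : (0 + 8 * n + 1 - (0 + 1) : ℕ) = 8 * n := by omega
  have c2 : (av n p + n + 1 - (av n p + 1) : ℕ) = n := by omega
  rw [c1, c2, min_self, min_self, min_comm (2 * n % p) (n % p)]
  unfold E2
  simp only [nsmul_eq_mul, mul_one]
  set s0 : ℤ := ((8 * n / p : ℕ) : ℤ) with hs0
  set sz : ℤ := ((8 * n % p : ℕ) : ℤ) with hsz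
  set q0 : ℤ := ((n / p : ℕ) : ℤ) with hq0
  set qz : ℤ := ((n % p : ℕ) : ℤ) with hqz
  have e8' : 8 * (n : ℤ) = s0 * p + sz := by rw [← e8]; push_cast; ring
  have c8 : ((8 * n : ℕ) : ℤ) = 8 * (n : ℤ) := by push_cast; ring
  rw [c8]
  linear_combination (s0) * e8' - q0 * e1

lemma g_sum {n p σ : ℕ} (hp : 0 < p) (hn : 1 ≤ n) (h8 : p ≤ 8 * n) :
    ∑ k ∈ SS n p, (if 8 * n / p = 1 ∧ 8 * n % p < k ∧ k ≤ min (j0 σ p) (p - 2 * n % p) then 1 else 0) =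
      gd n σ p := by
  unfold gd
  by_cases h : 8 * n / p = 1
  · rw [if_pos h, ← Finset.card_filter]
    have h1 := Nat.div_add_mod' (8 * n) p
    rw [h, one_mul] at h1
    have h2 := Nat.mod_lt (8 * n) hp
    have h4 : 2 * n % p = 2 * n := Nat.mod_eq_of_lt (by omega)
    have h5 : av n p = p - 2 * n := by
      unfold av
      rw [h4, Nat.mod_eq_of_lt (by omega)]
    have h3 : (SS n p).filter (fun k => 8 * n / p = 1 ∧ 8 * n % p < k ∧ k ≤ min (j0 σ p) (p - 2 * n % p)) =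
        Finset.Icc (8 * n % p + 1) (min (j0 σ p) (p - 2 * n % p)) := by
      ext k
      unfold SS sN RR
      rw [h5, h4]
      simp only [Finset.mem_filter, Finset.mem_sdiff, Finset.mem_Icc]
      constructor
      · intro hk
        omega
      · intro hk
        refine ⟨⟨by omega, by omega⟩, h, by omega, by omega⟩
    rw [h3, Nat.card_Icc]
    omega
  · rw [if_neg h]
    exact Finset.sum_eq_zero fun k _ => if_neg fun h' => h h'.1

variable {p : ℕ} [hp : Fact p.Prime]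

/-- medium primes -/
theorem P_med {n σ q : ℕ} {u : ℚ} (hσ : σ = 1 ∨ σ = 3) (hu : UInt q u) (hn : 1 ≤ n) (hp3 : 3 ≤ p)
    (h8 : p ≤ 8 * n) (hp2 : 32 * n + 3 < p ^ 2) :
    padicNorm p ((q : ℚ) ^ (7 * n) * DET n σ u (7 * n)) ≤ (p : ℚ) ^ E2 n σ p := by
  have hp0 : 0 < p := hp.out.pos
  have hσ3 : σ ≤ 3 := by rcases hσ with rfl | rfl <;> norm_num
  have hσ1 : 1 ≤ σ := by rcases hσ with rfl | rfl <;> norm_num
  have hcard : (SS n p).card = 7 * n := by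
    unfold SS
    rw [Finset.card_sdiff_of_subset (RR_sub hp0 hn h8)]
    unfold sN RR
    rw [Nat.card_Icc, Nat.card_Icc]
    omega
  have hfs : ∀ j ∈ sN n, padicNorm p (fs σ 1 j) ≤ p ∧ padicNorm p (fs σ 2 j) ≤ (p : ℚ) ^ 2 := by
    intro j hj
    unfold sN at hj
    rw [Finset.mem_Icc] at hj
    exact fs_med hσ3 hσ1 hp2 hj.2
  obtain ⟨_, z, hz⟩ := hu
  rw [DET_eq, ← sum_main hp0 hn h8 _ (g_sum hp0 hn h8)]
  have hSS : SS n p ⊆ sN n := Finset.sdiff_subset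
  refine det_le (by omega) hSS hcard _ (NL_xg n σ u) (padicNorm.of_nat q)
    (by rw [hz]; exact padicNorm.of_int z) (fun j hj => (hfs j hj).1) (fun j hj => (hfs j hj).2)
    (fun j _ => (xx_bd hp0 hn h8 j).2) (fun j _ => (xx_bd hp0 hn h8 j).1) _ (fun k _ => by split_ifs <;> norm_num)
    fun k hk hgk => ?_
  have hc : 8 * n / p = 1 ∧ 8 * n % p < k ∧ k ≤ min (j0 σ p) (p - 2 * n % p) := by
    by_contra h
    rw [if_neg h] at hgk
    omega
  obtain ⟨h, hk1, hk2⟩ := hc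
  have h1 := Nat.div_add_mod' (8 * n) p
  rw [h, one_mul] at h1
  have h2 := Nat.mod_lt (8 * n) hp0
  have h4 : 2 * n % p = 2 * n := Nat.mod_eq_of_lt (by omega)
  have h4' : n % p = n := Nat.mod_eq_of_lt (by omega)
  have h6 : 2 * n / p = 0 := Nat.div_eq_of_lt (by omega)
  have h6' : n / p = 0 := Nat.div_eq_of_lt (by omega)
  have h5 : av n p = p - 2 * n := by
    unfold av
    rw [h4, Nat.mod_eq_of_lt (by omega)]
  rw [h4] at hk2
  have hkj : k ≤ j0 σ p := le_trans hk2 (min_le_left _ _)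
  have hkp : k ≤ p - 2 * n := le_trans hk2 (min_le_right _ _)
  refine ⟨?_, ?_, ?_⟩
  · rw [xx_SS hp0 hn h8, cnt_dm hp0, cnt_dm hp0, h4, h4', h6, h6', h5]
    unfold fc
    have e : ((k : ℤ) - ((p - 2 * n : ℕ) : ℤ) - 1) % p = (k : ℤ) - ((p - 2 * n : ℕ) : ℤ) - 1 + p := by
      have e1 : (k : ℤ) - ((p - 2 * n : ℕ) : ℤ) - 1 = ((k : ℤ) - ((p - 2 * n : ℕ) : ℤ) - 1 + p) + p * (-1) := by ring
      conv_lhs => rw [e1]
      rw [Int.add_mul_emod_self_left, Int.emod_eq_of_lt (by omega) (by omega)]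
    rw [e, if_neg (by omega), if_neg (by omega)]
    norm_num
  · intro j hj hd
    unfold sN at hj
    rw [Finset.mem_Icc] at hj
    have e1 : (k : ℤ) - j = 0 := by
      apply Int.eq_zero_of_abs_lt_dvd hd
      rw [abs_lt]
      constructor <;> omega
    omega
  · exact fs_small (by omega) fun j hj => j0_dvd hσ hp3 (by omega)

end

end Pool.Agent.QG
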